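import Pool.Agent.MP_7dc785_an.Sep.Five

namespace Pool.Agent.Results.MP_7dc785_an.ClassesModR

open Pool.Agent.MP_7dc785_an
open scoped UpperHalfPlane MatrixGroups

/-- If a closed hyperbolic surface is homogeneous under `K`-quasiconformal maps which send an
essential loop of length at most 1.07 times the systole to generators of at most `m` cyclic subgroups
of the first homology modulo `r`, then `K` is at least `1 + c / m` with a universal `c`. -/
theorem result : ∃ c : ℝ, 0 < c ∧ ∀ r : ℕ, r ≠ 1 →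
    ∀ Γ : Subgroup SL(2, ℝ), IsClosedSurface Γ → ∀ (K : ℝ) (γ : Γ) (z : ℍ), γ.1 • z ≠ z →
      (∀ δ ∈ Γ, ∀ w : ℍ, δ • w ≠ w → dist z (γ.1 • z) ≤ 107 / 100 * dist w (δ • w)) →
      ∀ C : Finset Γ, (∀ x y : Surface Γ, ∃ (f : Surface Γ ≃ₜ Surface Γ) (φ : ℍ ≃ₜ ℍ),
        IsQC K φ ∧ (∀ w, f (proj Γ w) = proj Γ (φ w)) ∧ f x = y ∧
        ∃ β ∈ C, ∀ δ : Γ, (∀ w : ℍ, φ (γ.1 • w) = δ.1 • φ w) →
          ∀ χ : Γ →* Multiplicative (ZMod r), (∀ g : Γ, (∀ w : ℍ, g.1 • w = w) → χ g = 1) →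
            (χ δ = 1 ↔ χ β = 1)) → 1 + c / C.card ≤ K :=
  Sep.topR

end Pool.Agent.Results.MP_7dc785_an.ClassesModR
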