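import Pool.Agent.MP_7dc785_an.Sqrt

namespace Pool.Agent.Results.MP_7dc785_an.SqrtSystole

open Pool.Agent.MP_7dc785_an
open scoped UpperHalfPlane MatrixGroups

/-- A lower bound, independent of the genus, for the homogeneity constant of a closed hyperbolic
surface, which decays only like the exponential of the square root of the length of any essential
geodesic loop. -/
theorem result : ∃ c : ℝ, 0 < c ∧ ∀ Γ : Subgroup SL(2, ℝ), IsClosedSurface Γ →
    ∀ K : ℝ, QCHomogeneous Γ K → ∀ γ ∈ Γ, ∀ z : ℍ, γ • z ≠ z →
      1 + c * Real.exp (-(39 * Real.sqrt (dist z (γ • z)))) ≤ K :=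
  sqrt_bound

end Pool.Agent.Results.MP_7dc785_an.SqrtSystole
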